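import Mathlib
import Pool.Agent.Lib.MP_392c14_co.OwnForm

/-!
# The Turan density of `K_4^-` is `2/7`, with exact bounds for `ex(n, K_4^-)` for every `n`
-/

set_option autoImplicit false

namespace Pool.Agent.Results.MP_392c14_co.ExactTuran

open Finset

/-- `G` is (the edge set of) a 3-graph on the vertex set `V`: all its members are 3-element
subsets of `V`. -/
def IsGraph3 {V : Type} (G : Finset (Finset V)) : Prop := ∀ e ∈ G, e.card = 3

/-- `G` contains a copy of `F`: some (not necessarily induced) subgraph of `G` is isomorphic to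
`F`, that is, an injective map `φ` of the vertices sends every edge of `F` onto an edge of `G`. -/
def HasCopy {W V : Type} [DecidableEq V] (F : Finset (Finset W)) (G : Finset (Finset V)) : Prop :=
  ∃ φ : W → V, Function.Injective φ ∧ ∀ e ∈ F, e.image φ ∈ G

/-- `K_4^-`: three of the four 3-element subsets of a 4-element set -/
def K4minus : Finset (Finset (Fin 4)) := {{0, 1, 2}, {0, 1, 3}, {0, 2, 3}}

open Classical in
/-- The Turan function `ex(n, F)`: the maximum number of edges of an `F`-free 3-graph with vertex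
set `[n]`. -/
noncomputable def ex {W : Type} (F : Finset (Finset W)) (n : ℕ) : ℕ :=
  ((univ : Finset (Finset (Finset (Fin n)))).filter
    (fun G => IsGraph3 G ∧ ¬ HasCopy F G)).sup card

private theorem image3 {V : Type} [DecidableEq V] (φ : Fin 4 → V) (a b c : Fin 4) :
    ({a, b, c} : Finset (Fin 4)).image φ = {φ a, φ b, φ c} := by
  rw [image_insert, image_insert, image_singleton]

private theorem ex_eq (n : ℕ) : ex K4minus n = K4m.exK4m n := by
  classical
  apply le_antisymm
  · refine Finset.sup_le fun G hG => ?_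
    obtain ⟨h3, hf⟩ := (mem_filter.1 hG).2
    refine K4m.low_le_ex ⟨h3, ?_⟩
    intro a b c d hab hac had hbc hbd hcd h
    refine hf ⟨![a, b, c, d], ?_, ?_⟩
    · intro i j hij
      fin_cases i <;> fin_cases j <;> simp_all
    · intro e he
      simp only [K4minus, mem_insert, mem_singleton] at he
      rcases he with rfl | rfl | rfl
      · rw [image3]
        exact h.1
      · rw [image3]
        exact h.2.1
      · rw [image3]
        exact h.2.2
  · obtain ⟨H, hH, hc⟩ := K4m.low_exists_ex n
    rw [← hc]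
    refine Finset.le_sup (f := card) (mem_filter.2 ⟨mem_univ _, hH.1, ?_⟩)
    rintro ⟨φ, hφ, h⟩
    have h1 := h {0, 1, 2} (by simp [K4minus])
    have h2 := h {0, 1, 3} (by simp [K4minus])
    have h3 := h {0, 2, 3} (by simp [K4minus])
    rw [image3] at h1 h2 h3
    exact hH.2 (φ 0) (φ 1) (φ 2) (φ 3) (hφ.ne (by decide)) (hφ.ne (by decide))
      (hφ.ne (by decide)) (hφ.ne (by decide)) (hφ.ne (by decide)) (hφ.ne (by decide)) ⟨h1, h2, h3⟩

/-- The Turan density of `K_4^-` is `2/7`. More precisely, for every `n`,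
`(2/7) C(n,3) ≤ ex(n, K_4^-) ≤ (n^3 - n)/21`, with equality on the right when `n` is a power
of `6`. -/
theorem result :
    Filter.Tendsto (fun n : ℕ => (ex K4minus n : ℝ) / ((n.choose 3 : ℕ) : ℝ)) Filter.atTop
      (nhds (2 / 7 : ℝ)) ∧
    (∀ n : ℕ, 2 * n.choose 3 ≤ 7 * ex K4minus n ∧ 21 * ex K4minus n + n ≤ n ^ 3) ∧
    (∀ k : ℕ, 21 * ex K4minus (6 ^ k) + 6 ^ k = (6 ^ k) ^ 3) := by
  simp only [ex_eq]
  exact ⟨K4m.tendsto_two_sevenths, fun n => ⟨K4m.ex_lower n, K4m.ex_upper n⟩, K4m.ex_pow_six⟩

end Pool.Agent.Results.MP_392c14_co.ExactTuran
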